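import Mathlib
import Pool.Agent.H64.Pent.Defs
import Pool.Agent.H59.Pent.CritOf

set_option autoImplicit false

/-!
Faithful circuit covers of sub-weights of a permutation graph, read off at the numbered edges
(MP_a46c6f_co).
-/

namespace Pool.Agent.H55.HC

open SimpleGraph Pool.Agent.H5.Goddyn Pool.Agent.H98.TC Pool.Agent.H64.Pent Pool.Agent.H59.Pent

/-- none or exactly two of three -/
def Two (P Q R : Prop) : Prop :=
  (¬ P ∧ ¬ Q ∧ ¬ R) ∨ (P ∧ Q ∧ ¬ R) ∨ (P ∧ ¬ Q ∧ R) ∨ (¬ P ∧ Q ∧ R)

/-- `(G, w)` is inclusion-minimal: every bridgeless eulerian weight `w' ≤ w`, `w' ≠ w` has a faithful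
circuit cover. -/
def SubCovered {V : Type*} (G : SimpleGraph V) (w : Sym2 V → ℕ) : Prop :=
  ∀ w' : Sym2 V → ℕ, (∀ e ∈ G.edgeSet, w' e ≤ w e) → (∃ e ∈ G.edgeSet, w' e ≠ w e) →
    Eulerian (support G w') w' → Bridgeless (support G w') → HasFaithfulCircuitCover G w'

lemma two_of_ncard {α : Type*} (N : Set α) (u v w : α) (huv : u ≠ v) (huw : u ≠ w) (hvw : v ≠ w)
    (hN : ∀ t ∈ N, t = u ∨ t = v ∨ t = w) (h : N = ∅ ∨ N.ncard = 2) :
    Two (u ∈ N) (v ∈ N) (w ∈ N) := by
  classical
  unfold Two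
  rcases h with h | h
  · left; rw [h]; simp
  · by_cases h1 : u ∈ N <;> by_cases h2 : v ∈ N <;> by_cases h3 : w ∈ N
    · exfalso
      have e : N = {u, v, w} := by
        ext t
        constructor
        · intro ht; simpa using hN t ht
        · intro ht
          simp only [Set.mem_insert_iff, Set.mem_singleton_iff] at ht
          rcases ht with rfl | rfl | rfl <;> assumption
      have e2 : ({u, v, w} : Set α).ncard = 3 := by
        rw [Set.ncard_eq_three]
        exact ⟨u, v, w, huv, huw, hvw, rfl⟩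
      rw [e, e2] at h
      omega
    · exact Or.inr (Or.inl ⟨h1, h2, h3⟩)
    · exact Or.inr (Or.inr (Or.inl ⟨h1, h2, h3⟩))
    · exfalso
      have e : N = {u} := by
        ext t
        constructor
        · intro ht
          rcases hN t ht with rfl | rfl | rfl
          · rfl
          · exact absurd ht h2
          · exact absurd ht h3
        · rintro rfl; exact h1
      rw [e, Set.ncard_singleton] at h
      omega
    · exact Or.inr (Or.inr (Or.inr ⟨h1, h2, h3⟩))
    · exfalso
      have e : N = {v} := by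
        ext t
        constructor
        · intro ht
          rcases hN t ht with rfl | rfl | rfl
          · exact absurd ht h1
          · rfl
          · exact absurd ht h3
        · rintro rfl; exact h2
      rw [e, Set.ncard_singleton] at h
      omega
    · exfalso
      have e : N = {w} := by
        ext t
        constructor
        · intro ht
          rcases hN t ht with rfl | rfl | rfl
          · exact absurd ht h1
          · exact absurd ht h2
          · rfl
        · rintro rfl; exact h3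
      rw [e, Set.ncard_singleton] at h
      omega
    · exact Or.inl ⟨h1, h2, h3⟩

/-- The weight given by `a` on `C₁`, `b` on `C₂`, `μ` on `M`. -/
noncomputable def wq {V : Type*} {n : ℕ} [NeZero n] (x y : ZMod n → V) (p : Equiv.Perm (ZMod n))
    (a b : ZMod n → ZMod 2) (μ : ZMod n → ℕ) (e : Sym2 V) : ℕ := by
  classical
  exact (∑ i, if e = s(x i, x (i + 1)) then (a i).val else 0) +
    (∑ j, if e = s(y j, y (j + 1)) then (b j).val else 0) +
    ∑ i, if e = s(x i, y (p i)) then μ i else 0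

theorem cover {V : Type*} [Finite V] (G : SimpleGraph V) (M C₁ C₂ : G.Subgraph)
    (h : IsPermutationGraph G M C₁ C₂) (hmin : SubCovered G (wt M)) {n : ℕ} [NeZero n]
    (hn : 3 ≤ n) (x y : ZMod n → V) (p : Equiv.Perm (ZMod n)) (hx : Numb C₁ x) (hy : Numb C₂ y)
    (hM : ∀ i, M.Adj (x i) (y (p i)))
    (a b : ZMod n → ZMod 2) (μ : ZMod n → ℕ) (hμ : ∀ i, μ i ≤ 2) (hμ2 : ∃ i, μ i ≠ 2)
    (ha : ∀ i, (μ i : ZMod 2) = a (i - 1) + a i) (hb : ∀ i, (μ i : ZMod 2) = b (p i - 1) + b (p i))
    (hbr : ∀ g, μ g = 2 → ∀ S T : ZMod n → ZMod 2, (∀ i, a i = 1 → S i = S (i + 1)) →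
      (∀ j, b j = 1 → T j = T (j + 1)) → (∀ i, i ≠ g → μ i ≠ 0 → S i = T (p i)) → S g = 1 →
      T (p g) = 0 → False) :
    ∃ (k : ℕ) (A B Mm : Fin k → ZMod n → Prop),
      (∀ c i, Two (A c (i - 1)) (A c i) (Mm c i)) ∧
      (∀ c i, Two (B c (p i - 1)) (B c (p i)) (Mm c i)) ∧
      (∀ i, {c | A c i}.ncard = (a i).val) ∧ (∀ j, {c | B c j}.ncard = (b j).val) ∧
      (∀ i, {c | Mm c i}.ncard = μ i) := by
  classical
  have ix := hx.1
  have iy := hy.1
  have mx : ∀ i, x i ∈ C₁.verts := fun i => by rw [← hx.2.1]; exact ⟨i, rfl⟩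
  have my : ∀ j, y j ∈ C₂.verts := fun j => by rw [← hy.2.1]; exact ⟨j, rfl⟩
  have hxy : ∀ i j, x i ≠ y j := by
    intro i j hij
    exact Set.disjoint_left.1 h.disjoint (mx i) (hij ▸ my j)
  have hx1 : ∀ i, x i ≠ x (i + 1) := fun i hi => one_ne hn i (ix hi).symm
  have hy1 : ∀ j, y j ≠ y (j + 1) := fun j hj => one_ne hn j (iy hj).symm
  have hcov : ∀ v, (∃ i, v = x i) ∨ ∃ i, v = y (p i) := by
    intro v
    rcases cover' h v with hv | hv
    · rw [← hx.2.1] at hv
      obtain ⟨i, hi⟩ := hv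
      exact Or.inl ⟨i, hi.symm⟩
    · rw [← hy.2.1] at hv
      obtain ⟨j, hj⟩ := hv
      exact Or.inr ⟨p.symm j, by rw [Equiv.apply_symm_apply]; exact hj.symm⟩
  have hCx : ∀ i, C₁.Adj (x i) (x (i + 1)) := fun i => (hx.2.2 i _).2 (Or.inr rfl)
  have hCy : ∀ j, C₂.Adj (y j) (y (j + 1)) := fun j => (hy.2.2 j _).2 (Or.inr rfl)
  have hMu : ∀ v w w', M.Adj v w → M.Adj v w' → w = w' := by
    intro v w w' h1 h2
    exact (h.perfect.1 (h.perfect.2 v)).unique h1 h2
  -- adjacency of `G`
  have hGx : ∀ i u, G.Adj (x i) u ↔ u = x (i - 1) ∨ u = x (i + 1) ∨ u = y (p i) := by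
    intro i u
    constructor
    · intro hu
      by_cases hm : M.Adj (x i) u
      · exact Or.inr (Or.inr (hMu _ _ _ hm (hM i)))
      · rcases (h.union (x i) u).1 ⟨hu, hm⟩ with h1 | h1
        · rcases (hx.2.2 i u).1 h1 with h2 | h2
          · exact Or.inl h2
          · exact Or.inr (Or.inl h2)
        · exact absurd (C₂.edge_vert h1) (fun hh => Set.disjoint_left.1 h.disjoint (mx i) hh)
    · rintro (rfl | rfl | rfl)
      · exact ((hx.2.2 i _).2 (Or.inl rfl)).adj_sub
      · exact (hCx i).adj_sub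
      · exact (hM i).adj_sub
  have hGy : ∀ i u, G.Adj (y (p i)) u ↔ u = y (p i - 1) ∨ u = y (p i + 1) ∨ u = x i := by
    intro i u
    constructor
    · intro hu
      by_cases hm : M.Adj (y (p i)) u
      · exact Or.inr (Or.inr (hMu _ _ _ hm (hM i).symm))
      · rcases (h.union (y (p i)) u).1 ⟨hu, hm⟩ with h1 | h1
        · exact absurd (C₁.edge_vert h1) (fun hh => Set.disjoint_left.1 h.disjoint hh (my _))
        · rcases (hy.2.2 (p i) u).1 h1 with h2 | h2
          · exact Or.inl h2
          · exact Or.inr (Or.inl h2)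
    · rintro (rfl | rfl | rfl)
      · exact ((hy.2.2 (p i) _).2 (Or.inl rfl)).adj_sub
      · exact (hCy (p i)).adj_sub
      · exact (hM i).adj_sub.symm
  -- the weight
  set w' : Sym2 V → ℕ := wq x y p a b μ with hw'
  have sxx : ∀ i k, s(x i, x (i + 1)) = s(x k, x (k + 1)) → i = k := by
    intro i k hik
    rw [Sym2.eq_iff] at hik
    rcases hik with ⟨h1, -⟩ | ⟨h1, h2⟩
    · exact ix h1
    · exfalso
      have e1 := ix h1
      have e2 := ix h2
      apply two_ne hn i
      rw [e2, e1]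
      ring
  have syy : ∀ i k, s(y i, y (i + 1)) = s(y k, y (k + 1)) → i = k := by
    intro i k hik
    rw [Sym2.eq_iff] at hik
    rcases hik with ⟨h1, -⟩ | ⟨h1, h2⟩
    · exact iy h1
    · exfalso
      have e1 := iy h1
      have e2 := iy h2
      apply two_ne hn i
      rw [e2, e1]
      ring
  have sxy : ∀ i j k l, s(x i, x j) ≠ s(y k, y l) := by
    intro i j k l hh
    rw [Sym2.eq_iff] at hh
    rcases hh with ⟨h1, -⟩ | ⟨h1, -⟩
    · exact hxy _ _ h1
    · exact hxy _ _ h1
  have sxm : ∀ i j k l, s(x i, x j) ≠ s(x k, y l) := by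
    intro i j k l hh
    rw [Sym2.eq_iff] at hh
    rcases hh with ⟨-, h1⟩ | ⟨h1, -⟩
    · exact hxy _ _ h1
    · exact hxy _ _ h1
  have sym' : ∀ i j k l, s(y i, y j) ≠ s(x k, y l) := by
    intro i j k l hh
    rw [Sym2.eq_iff] at hh
    rcases hh with ⟨h1, -⟩ | ⟨-, h1⟩
    · exact hxy _ _ h1.symm
    · exact hxy _ _ h1.symm
  have smm : ∀ i k, s(x i, y (p i)) = s(x k, y (p k)) → i = k := by
    intro i k hik
    rw [Sym2.eq_iff] at hik
    rcases hik with ⟨h1, -⟩ | ⟨h1, -⟩
    · exact ix h1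
    · exact absurd h1 (hxy _ _)
  have wx : ∀ i, w' s(x i, x (i + 1)) = (a i).val := by
    intro i
    have e1 : (∑ k, if s(x i, x (i + 1)) = s(x k, x (k + 1)) then (a k).val else 0) = (a i).val := by
      rw [Finset.sum_eq_single i]
      · rw [if_pos rfl]
      · intro k _ hk
        rw [if_neg (fun hh => hk (sxx _ _ hh).symm)]
      · intro hh; exact absurd (Finset.mem_univ i) hh
    have e2 : (∑ j, if s(x i, x (i + 1)) = s(y j, y (j + 1)) then (b j).val else 0) = 0 :=
      Finset.sum_eq_zero fun j _ => if_neg (sxy _ _ _ _)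
    have e3 : (∑ k, if s(x i, x (i + 1)) = s(x k, y (p k)) then μ k else 0) = 0 :=
      Finset.sum_eq_zero fun j _ => if_neg (sxm _ _ _ _)
    rw [hw']
    unfold wq
    rw [e1, e2, e3, add_zero, add_zero]
  have wy : ∀ j, w' s(y j, y (j + 1)) = (b j).val := by
    intro i
    have e1 : (∑ k, if s(y i, y (i + 1)) = s(y k, y (k + 1)) then (b k).val else 0) = (b i).val := by
      rw [Finset.sum_eq_single i]
      · rw [if_pos rfl]
      · intro k _ hk
        rw [if_neg (fun hh => hk (syy _ _ hh).symm)]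
      · intro hh; exact absurd (Finset.mem_univ i) hh
    have e2 : (∑ j, if s(y i, y (i + 1)) = s(x j, x (j + 1)) then (a j).val else 0) = 0 :=
      Finset.sum_eq_zero fun j _ => if_neg (fun hh => sxy _ _ _ _ hh.symm)
    have e3 : (∑ k, if s(y i, y (i + 1)) = s(x k, y (p k)) then μ k else 0) = 0 :=
      Finset.sum_eq_zero fun j _ => if_neg (sym' _ _ _ _)
    rw [hw']
    unfold wq
    rw [e1, e2, e3, zero_add, add_zero]
  have wm : ∀ i, w' s(x i, y (p i)) = μ i := by
    intro i
    have e1 : (∑ k, if s(x i, y (p i)) = s(x k, y (p k)) then μ k else 0) = μ i := by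
      rw [Finset.sum_eq_single i]
      · rw [if_pos rfl]
      · intro k _ hk
        rw [if_neg (fun hh => hk (smm _ _ hh).symm)]
      · intro hh; exact absurd (Finset.mem_univ i) hh
    have e2 : (∑ j, if s(x i, y (p i)) = s(x j, x (j + 1)) then (a j).val else 0) = 0 :=
      Finset.sum_eq_zero fun j _ => if_neg (fun hh => sxm _ _ _ _ hh.symm)
    have e3 : (∑ k, if s(x i, y (p i)) = s(y k, y (k + 1)) then (b k).val else 0) = 0 :=
      Finset.sum_eq_zero fun j _ => if_neg (fun hh => sym' _ _ _ _ hh.symm)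
    rw [hw']
    unfold wq
    rw [e1, e2, e3, zero_add, zero_add]
  have wx' : ∀ i, w' s(x i, x (i - 1)) = (a (i - 1)).val := by
    intro i
    have := wx (i - 1)
    rw [sub_add_cancel, Sym2.eq_swap] at this
    exact this
  have wy' : ∀ j, w' s(y j, y (j - 1)) = (b (j - 1)).val := by
    intro i
    have := wy (i - 1)
    rw [sub_add_cancel, Sym2.eq_swap] at this
    exact this
  have wm' : ∀ i, w' s(y (p i), x i) = μ i := by
    intro i
    rw [Sym2.eq_swap]
    exact wm i
  -- the three kinds of edges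
  have hedge : ∀ u v, G.Adj u v → (∃ i, s(u, v) = s(x i, x (i + 1))) ∨
      (∃ j, s(u, v) = s(y j, y (j + 1))) ∨ ∃ i, s(u, v) = s(x i, y (p i)) := by
    intro u v huv
    rcases hcov u with ⟨i, rfl⟩ | ⟨i, rfl⟩
    · rcases (hGx i v).1 huv with rfl | rfl | rfl
      · refine Or.inl ⟨i - 1, ?_⟩
        rw [sub_add_cancel, Sym2.eq_swap]
      · exact Or.inl ⟨i, rfl⟩
      · exact Or.inr (Or.inr ⟨i, rfl⟩)
    · rcases (hGy i v).1 huv with rfl | rfl | rfl
      · refine Or.inr (Or.inl ⟨p i - 1, ?_⟩)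
        rw [sub_add_cancel, Sym2.eq_swap]
      · exact Or.inr (Or.inl ⟨p i, rfl⟩)
      · refine Or.inr (Or.inr ⟨i, ?_⟩)
        rw [Sym2.eq_swap]
  have hzv : ∀ z : ZMod 2, z.val ≤ 1 := by decide
  have hwt : ∀ u v, wt M s(u, v) = if M.Adj u v then 2 else 1 := by
    intro u v
    unfold wt
    by_cases hh : M.Adj u v
    · rw [if_pos (show s(u, v) ∈ M.edgeSet from hh), if_pos hh]
    · rw [if_neg (fun h' : s(u, v) ∈ M.edgeSet => hh h'), if_neg hh]
  have hwt1 : ∀ e, 1 ≤ wt M e := by
    intro e; unfold wt; split_ifs <;> omega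
  have hle : ∀ e ∈ G.edgeSet, w' e ≤ wt M e := by
    intro e he
    induction e using Sym2.ind with
    | _ u v =>
      rcases hedge u v he with ⟨i, hi⟩ | ⟨j, hj⟩ | ⟨i, hi⟩
      · rw [hi, wx]
        exact (hzv _).trans (hwt1 _)
      · rw [hj, wy]
        exact (hzv _).trans (hwt1 _)
      · rw [hi, wm, hwt, if_pos (hM i)]
        exact hμ i
  have hne : ∃ e ∈ G.edgeSet, w' e ≠ wt M e := by
    obtain ⟨i, hi⟩ := hμ2
    refine ⟨s(x i, y (p i)), (hM i).adj_sub, ?_⟩
    rw [wm, hwt, if_pos (hM i)]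
    exact hi
  have hsupp : ∀ u v, (support G w').Adj u v ↔ G.Adj u v ∧ 0 < w' s(u, v) := by
    intro u v
    simp only [Pool.Agent.H98.TC.support, fromEdgeSet_adj, Set.mem_ofPred_eq, mem_edgeSet, ne_eq]
    constructor
    · rintro ⟨⟨h1, h2⟩, -⟩; exact ⟨h1, h2⟩
    · rintro ⟨h1, h2⟩; exact ⟨⟨h1, h2⟩, h1.ne⟩
  have e3 : ∀ (α β γ : V) (hab : α ≠ β) (hac : α ≠ γ) (hbc : β ≠ γ) (v : V)
      (hv : ∀ u, G.Adj v u ↔ u = α ∨ u = β ∨ u = γ) (s t : ZMod 2) (m : ℕ)
      (hm : (m : ZMod 2) = s + t) (h1 : w' s(v, α) = s.val) (h2 : w' s(v, β) = t.val)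
      (h3 : w' s(v, γ) = m), Even {u | G.Adj v u ∧ Odd (w' s(v, u))}.ncard := by
    intro α β γ hab hac hbc v hv s t m hm h1 h2 h3
    have hmo : Odd m ↔ s + t = 1 := by
      rw [← hm]
      constructor
      · rintro ⟨r, rfl⟩
        push_cast
        rw [show (2 : ZMod 2) = 0 by decide]
        simp
      · intro h4
        by_contra h5
        rw [Nat.not_odd_iff_even] at h5
        obtain ⟨r, rfl⟩ := h5
        rw [Nat.cast_add, CharTwo.add_self_eq_zero] at h4
        exact absurd h4 (by decide)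
    have hset : ∀ P Q R : Prop, (Odd (s.val) ↔ P) → (Odd (t.val) ↔ Q) → (Odd m ↔ R) →
        {u | G.Adj v u ∧ Odd (w' s(v, u))} = {u | (u = α ∧ P) ∨ (u = β ∧ Q) ∨ (u = γ ∧ R)} := by
      intro P Q R hP hQ hR
      ext u
      simp only [Set.mem_ofPred_eq, hv]
      constructor
      · rintro ⟨rfl | rfl | rfl, hu⟩
        · rw [h1] at hu; exact Or.inl ⟨rfl, hP.1 hu⟩
        · rw [h2] at hu; exact Or.inr (Or.inl ⟨rfl, hQ.1 hu⟩)
        · rw [h3] at hu; exact Or.inr (Or.inr ⟨rfl, hR.1 hu⟩)
      · rintro (⟨rfl, hu⟩ | ⟨rfl, hu⟩ | ⟨rfl, hu⟩)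
        · exact ⟨Or.inl rfl, by rw [h1]; exact hP.2 hu⟩
        · exact ⟨Or.inr (Or.inl rfl), by rw [h2]; exact hQ.2 hu⟩
        · exact ⟨Or.inr (Or.inr rfl), by rw [h3]; exact hR.2 hu⟩
    rcases z2 s with hs | hs <;> rcases z2 t with ht | ht
    · subst hs; subst ht
      rw [hset False False False (by decide) (by decide) (by rw [hmo]; decide)]
      simp
    · subst hs; subst ht
      rw [hset False True True (by decide) (by decide) (by rw [hmo]; decide)]
      have : {u | (u = α ∧ False) ∨ (u = β ∧ True) ∨ (u = γ ∧ True)} = {β, γ} := by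
        ext u; simp
      rw [this, Set.ncard_pair hbc]
      exact even_two
    · subst hs; subst ht
      rw [hset True False True (by decide) (by decide) (by rw [hmo]; decide)]
      have : {u | (u = α ∧ True) ∨ (u = β ∧ False) ∨ (u = γ ∧ True)} = {α, γ} := by
        ext u; simp
      rw [this, Set.ncard_pair hac]
      exact even_two
    · subst hs; subst ht
      rw [hset True True False (by decide) (by decide) (by rw [hmo]; decide)]
      have : {u | (u = α ∧ True) ∨ (u = β ∧ True) ∨ (u = γ ∧ False)} = {α, β} := by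
        ext u; simp
      rw [this, Set.ncard_pair hab]
      exact even_two
  have hx2 : ∀ i, x (i - 1) ≠ x (i + 1) := fun i hi => two_ne hn i (ix hi).symm
  have hy2 : ∀ i, y (i - 1) ≠ y (i + 1) := fun i hi => two_ne hn i (iy hi).symm
  have hev : ∀ v, Even {u | G.Adj v u ∧ Odd (w' s(v, u))}.ncard := by
    intro v
    rcases hcov v with ⟨i, rfl⟩ | ⟨i, rfl⟩
    · exact e3 (x (i - 1)) (x (i + 1)) (y (p i)) (hx2 i) (hxy _ _) (hxy _ _) (x i) (hGx i)
        (a (i - 1)) (a i) (μ i) (ha i) (wx' i) (wx i) (wm i)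
    · exact e3 (y (p i - 1)) (y (p i + 1)) (x i) (hy2 _) (hxy _ _).symm (hxy _ _).symm (y (p i))
        (hGy i) (b (p i - 1)) (b (p i)) (μ i) (hb i) (wy' _) (wy _) (wm' i)
  have hEul : Eulerian (support G w') w' := by
    intro v
    have hset : {u | (support G w').Adj v u ∧ Odd (w' s(v, u))} =
        {u | G.Adj v u ∧ Odd (w' s(v, u))} := by
      ext u
      simp only [Set.mem_ofPred_eq, hsupp]
      constructor
      · rintro ⟨⟨h1, -⟩, h2⟩; exact ⟨h1, h2⟩
      · rintro ⟨h1, h2⟩; exact ⟨⟨h1, h2.pos⟩, h2⟩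
    rw [hset]
    exact hev v
  -- the graph of the odd edges
  let O : SimpleGraph V :=
    { Adj := fun u v => G.Adj u v ∧ Odd (w' s(u, v))
      symm := ⟨fun u v hh => ⟨hh.1.symm, by rw [Sym2.eq_swap]; exact hh.2⟩⟩
      loopless := ⟨fun u hh => G.loopless.irrefl _ hh.1⟩ }
  have hOs : O ≤ support G w' := by
    intro a b hab
    rw [hsupp]
    exact ⟨hab.1, hab.2.pos⟩
  have hOc : O.IsCycles := by
    intro v hv
    have hfin : (G.neighborSet v).Finite := Set.toFinite _
    have h1 : (O.neighborSet v).ncard ≤ 3 := by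
      rw [← h.cubic v]
      exact Set.ncard_le_ncard (fun u hu => hu.1) hfin
    have h2 : Even (O.neighborSet v).ncard := hev v
    have h3 : (O.neighborSet v).ncard ≠ 0 := by
      exact ((Set.ncard_pos (Set.toFinite _)).2 hv).ne'
    obtain ⟨r, hr⟩ := h2
    omega
  have hBr : Bridgeless (support G w') := by
    intro e he
    induction e using Sym2.ind with
    | _ u v =>
      have huv := (hsupp u v).1 he
      by_cases ho : Odd (w' s(u, v))
      · rw [isBridge_iff, not_not]
        have h1 : O.Adj u v := ⟨huv.1, ho⟩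
        exact (hOc.reachable_deleteEdges h1).mono (deleteEdges_mono hOs)
      · intro hb1
        have hval : ∀ z : ZMod 2, 0 < z.val → ¬ Odd z.val → False := by decide
        rcases hedge u v huv.1 with ⟨i, hi⟩ | ⟨j, hj⟩ | ⟨g, hg⟩
        · rw [hi, wx] at ho huv
          exact hval _ huv.2 ho
        · rw [hj, wy] at ho huv
          exact hval _ huv.2 ho
        · rw [hg] at hb1
          rw [hg, wm] at ho huv
          have hg2 : μ g = 2 := by
            have h1 := hμ g
            have h2 := huv.2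
            rcases Nat.lt_or_ge (μ g) 2 with h3 | h3
            · exfalso
              apply ho
              have : μ g = 1 := by omega
              rw [this]; exact odd_one
            · omega
          rw [isBridge_iff] at hb1
          let T' : SimpleGraph V := (support G w').deleteEdges {s(x g, y (p g))}
          have hT' : ¬ T'.Reachable (x g) (y (p g)) := hb1
          have hcongr : ∀ u v, T'.Adj u v → (T'.Reachable (x g) u ↔ T'.Reachable (x g) v) :=
            fun u v huv => ⟨fun h1 => h1.trans huv.reachable, fun h1 => h1.trans huv.symm.reachable⟩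
          refine hbr g hg2 (fun i => if T'.Reachable (x g) (x i) then 1 else 0)
            (fun j => if T'.Reachable (x g) (y j) then 1 else 0) ?_ ?_ ?_ ?_ ?_
          · intro i hi
            have hadj : T'.Adj (x i) (x (i + 1)) := by
              refine deleteEdges_adj.2 ⟨(hsupp _ _).2 ⟨(hCx i).adj_sub, ?_⟩, ?_⟩
              · rw [wx, hi]; decide
              · intro hh
                rw [Set.mem_singleton_iff] at hh
                exact sxm _ _ _ _ hh
            show (if T'.Reachable (x g) (x i) then (1 : ZMod 2) else 0) = if _ then 1 else 0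
            rw [if_congr (hcongr _ _ hadj) rfl rfl]
          · intro j hj
            have hadj : T'.Adj (y j) (y (j + 1)) := by
              refine deleteEdges_adj.2 ⟨(hsupp _ _).2 ⟨(hCy j).adj_sub, ?_⟩, ?_⟩
              · rw [wy, hj]; decide
              · intro hh
                rw [Set.mem_singleton_iff] at hh
                exact sym' _ _ _ _ hh
            show (if T'.Reachable (x g) (y j) then (1 : ZMod 2) else 0) = if _ then 1 else 0
            rw [if_congr (hcongr _ _ hadj) rfl rfl]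
          · intro i hi hm
            have hadj : T'.Adj (x i) (y (p i)) := by
              refine deleteEdges_adj.2 ⟨(hsupp _ _).2 ⟨(hM i).adj_sub, ?_⟩, ?_⟩
              · rw [wm]; omega
              · intro hh
                rw [Set.mem_singleton_iff] at hh
                exact hi (smm _ _ hh)
            show (if T'.Reachable (x g) (x i) then (1 : ZMod 2) else 0) = if _ then 1 else 0
            rw [if_congr (hcongr _ _ hadj) rfl rfl]
          · exact if_pos (Reachable.refl _)
          · exact if_neg hT'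
  obtain ⟨k, 𝒞, hC, hcnt⟩ := hmin w' hle hne hEul hBr
  have hdeg : ∀ c v, (𝒞 c).neighborSet v = ∅ ∨ ((𝒞 c).neighborSet v).ncard = 2 := by
    intro c v
    by_cases hv : v ∈ (𝒞 c).verts
    · exact Or.inr ((hC c).2 v hv)
    · left
      ext u
      simp only [Subgraph.mem_neighborSet, Set.mem_empty_iff_false, iff_false]
      intro hu
      exact hv ((𝒞 c).edge_vert hu)
  refine ⟨k, fun c i => (𝒞 c).Adj (x i) (x (i + 1)), fun c j => (𝒞 c).Adj (y j) (y (j + 1)),
    fun c i => (𝒞 c).Adj (x i) (y (p i)), ?_, ?_, ?_, ?_, ?_⟩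
  · intro c i
    have h1 := two_of_ncard ((𝒞 c).neighborSet (x i)) (x (i - 1)) (x (i + 1)) (y (p i)) (hx2 i)
      (hxy _ _) (hxy _ _) (fun t ht => (hGx i t).1 (show (𝒞 c).Adj (x i) t from ht).adj_sub)
      (hdeg c _)
    have e1 : (𝒞 c).Adj (x (i - 1)) (x (i - 1 + 1)) ↔ x (i - 1) ∈ (𝒞 c).neighborSet (x i) := by
      rw [sub_add_cancel]
      exact ⟨fun hh => hh.symm, fun hh => (show (𝒞 c).Adj (x i) (x (i - 1)) from hh).symm⟩
    show Two ((𝒞 c).Adj (x (i - 1)) (x (i - 1 + 1))) _ _
    rw [propext e1]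
    exact h1
  · intro c i
    have h1 := two_of_ncard ((𝒞 c).neighborSet (y (p i))) (y (p i - 1)) (y (p i + 1)) (x i)
      (hy2 _) (hxy _ _).symm (hxy _ _).symm
      (fun t ht => (hGy i t).1 (show (𝒞 c).Adj (y (p i)) t from ht).adj_sub) (hdeg c _)
    have e1 : (𝒞 c).Adj (y (p i - 1)) (y (p i - 1 + 1)) ↔
        y (p i - 1) ∈ (𝒞 c).neighborSet (y (p i)) := by
      rw [sub_add_cancel]
      exact ⟨fun hh => hh.symm, fun hh => (show (𝒞 c).Adj (y (p i)) (y (p i - 1)) from hh).symm⟩
    have e2 : (𝒞 c).Adj (x i) (y (p i)) ↔ x i ∈ (𝒞 c).neighborSet (y (p i)) :=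
      ⟨fun hh => hh.symm, fun hh => (show (𝒞 c).Adj (y (p i)) (x i) from hh).symm⟩
    show Two ((𝒞 c).Adj (y (p i - 1)) (y (p i - 1 + 1))) _ ((𝒞 c).Adj (x i) (y (p i)))
    rw [propext e1, propext e2]
    exact h1
  · intro i
    have h1 := hcnt s(x i, x (i + 1)) (hCx i).adj_sub
    rw [wx] at h1
    exact h1
  · intro j
    have h1 := hcnt s(y j, y (j + 1)) (hCy j).adj_sub
    rw [wy] at h1
    exact h1
  · intro i
    have h1 := hcnt s(x i, y (p i)) (hM i).adj_sub
    rw [wm] at h1
    exact h1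

end Pool.Agent.H55.HC
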