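import Mathlib
import Pool.Agent.H55.HC.Graph
import Pool.Agent.H57.Code.Lp
import Pool.Agent.H98.Code.AA

set_option autoImplicit false

/-!
The code of an inclusion-minimal permutation pair satisfies `HER` (MP_a46c6f_co).
-/

namespace Pool.Agent.H55.HC

open SimpleGraph Pool.Agent.H5.Goddyn Pool.Agent.H98.TC Pool.Agent.H64.Pent
open Pool.Agent.H98.Code (K z BelowOn Covered HER)
open Pool.Agent.H57.Code (Ev word Lp word_mem)

lemma zz2 : ∀ t : ZMod 2, t = 0 ∨ t = 1 := by decide

lemma pair {k : ℕ} (P Q M : Fin k → Prop) (h : ∀ c, Two (P c) (Q c) (M c))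
    (h1 : {c | P c}.ncard = 1) (h2 : {c | Q c}.ncard = 1) (h3 : {c | M c}.ncard = 2) :
    (∀ c, ¬ M c → ¬ P c ∧ ¬ Q c) ∧ ∀ c c', M c → M c' → c ≠ c' → (Q c ↔ ¬ Q c') := by
  obtain ⟨c1, e1⟩ := Set.ncard_eq_one.1 h1
  obtain ⟨c2, e2⟩ := Set.ncard_eq_one.1 h2
  have f1 : ∀ c, P c ↔ c = c1 := fun c => by
    have : c ∈ {c | P c} ↔ c ∈ ({c1} : Set (Fin k)) := by rw [e1]
    simpa using this
  have f2 : ∀ c, Q c ↔ c = c2 := fun c => by
    have : c ∈ {c | Q c} ↔ c ∈ ({c2} : Set (Fin k)) := by rw [e2]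
    simpa using this
  obtain ⟨c3, hc3⟩ : ∃ c, M c := by
    have : {c | M c}.Nonempty := by
      rw [← Set.ncard_pos (Set.toFinite _)]
      omega
    exact this
  have h12 : c1 ≠ c2 := by
    intro h12
    have := h c3
    unfold Two at this
    rw [f1, f2, h12] at this
    tauto
  constructor
  · intro c hc
    have h4 := h c
    unfold Two at h4
    have h5 : ¬ (P c ∧ Q c) := by
      rintro ⟨h6, h7⟩
      exact h12 (((f1 c).1 h6).symm.trans ((f2 c).1 h7))
    tauto
  · intro c c' hc hc' hne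
    have h4 := h c
    have h5 := h c'
    unfold Two at h4 h5
    have h6 : ¬ (P c ∧ P c') := fun hh => hne (((f1 c).1 hh.1).trans ((f1 c').1 hh.2).symm)
    have h7 : ¬ (Q c ∧ Q c') := fun hh => hne (((f2 c).1 hh.1).trans ((f2 c').1 hh.2).symm)
    tauto

section

variable {n : ℕ} (p : Equiv.Perm (ZMod n)) (E P : Set (ZMod n)) (s : ZMod n → K)

/-- constant along the transitions of the state -/
def Loc (a b : ZMod n → ZMod 2) : Prop :=
  ∀ i, (i ∈ E → a (i - 1) = a i ∧ b (p i - 1) = b (p i)) ∧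
    (i ∈ P → (s i).2 = 0 → a (i - 1) = b (p i - 1) ∧ a i = b (p i)) ∧
    (i ∈ P → (s i).2 = 1 → a (i - 1) = b (p i) ∧ a i = b (p i - 1)) ∧
    (i ∉ E → i ∉ P → a (i - 1) = a i ∧ a i = b (p i) ∧ b (p i - 1) = b (p i))

variable {p E P s}

lemma loc_of (hP : ∀ v ∈ P, (s v).1 = 1) {a b : ZMod n → ZMod 2} (h : Ev p a b)
    (hB : BelowOn E P s (word p a b)) (h0 : ∀ w, w ∉ E → w ∉ P → word p a b w = 0) :
    Loc p E P s a b := by
  intro i
  have he := h i
  refine ⟨?_, ?_, ?_, ?_⟩
  · intro hi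
    have h1 := hB.1 i hi
    simp only [word] at h1
    generalize a (i - 1) = x1 at *
    generalize a i = x2 at *
    generalize b (p i - 1) = x3 at *
    generalize b (p i) = x4 at *
    revert x1 x2 x3 x4
    decide
  · intro hi ht
    have h1 := hB.2 i hi
    have h2 := hP i hi
    have h3 : s i = (1, 0) := Prod.ext h2 ht
    rw [h3] at h1
    simp only [word] at h1
    generalize a (i - 1) = x1 at *
    generalize a i = x2 at *
    generalize b (p i - 1) = x3 at *
    generalize b (p i) = x4 at *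
    clear h0 hB
    revert x1 x2 x3 x4
    decide
  · intro hi ht
    have h1 := hB.2 i hi
    have h2 := hP i hi
    have h3 : s i = (1, 1) := Prod.ext h2 ht
    rw [h3] at h1
    simp only [word] at h1
    generalize a (i - 1) = x1 at *
    generalize a i = x2 at *
    generalize b (p i - 1) = x3 at *
    generalize b (p i) = x4 at *
    clear h0 hB
    revert x1 x2 x3 x4
    decide
  · intro hi hi'
    have h1 := h0 i hi hi'
    simp only [word] at h1
    generalize a (i - 1) = x1 at *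
    generalize a i = x2 at *
    generalize b (p i - 1) = x3 at *
    generalize b (p i) = x4 at *
    clear h0 hB
    revert x1 x2 x3 x4
    decide

lemma Loc.ev {a b : ZMod n → ZMod 2} (h : Loc p E P s a b) : Ev p a b := by
  intro i
  obtain ⟨h1, h2, h3, h4⟩ := h i
  by_cases hE : i ∈ E
  · obtain ⟨h5, h6⟩ := h1 hE
    rw [h5, h6, CharTwo.add_self_eq_zero, CharTwo.add_self_eq_zero]
  · by_cases hP : i ∈ P
    · rcases zz2 (s i).2 with ht | ht
      · obtain ⟨h5, h6⟩ := h2 hP ht
        rw [h5, h6]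
      · obtain ⟨h5, h6⟩ := h3 hP ht
        rw [h5, h6, add_comm]
    · obtain ⟨h5, h6, h7⟩ := h4 hE hP
      rw [h5, h7, CharTwo.add_self_eq_zero, CharTwo.add_self_eq_zero]

variable (p E P s)

/-- the edges of the classes -/
def cls (e f : ZMod n ⊕ ZMod n) : Prop :=
  ∀ a b, Loc p E P s a b → Sum.elim a b e = Sum.elim a b f

open Classical in
/-- the trace of the class of `e` on `C₁` -/
noncomputable def RA (e : ZMod n ⊕ ZMod n) (i : ZMod n) : ZMod 2 :=
  if cls p E P s e (Sum.inl i) then 1 else 0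

open Classical in
/-- the trace of the class of `e` on `C₂` -/
noncomputable def RB (e : ZMod n ⊕ ZMod n) (j : ZMod n) : ZMod 2 :=
  if cls p E P s e (Sum.inr j) then 1 else 0

variable {p E P s}

lemma cls_congr {e f g : ZMod n ⊕ ZMod n}
    (h : ∀ a b, Loc p E P s a b → Sum.elim a b f = Sum.elim a b g) :
    cls p E P s e f ↔ cls p E P s e g :=
  ⟨fun h1 a b hab => (h1 a b hab).trans (h a b hab),
    fun h1 a b hab => (h1 a b hab).trans (h a b hab).symm⟩

lemma RAA (e : ZMod n ⊕ ZMod n) {i j : ZMod n} (h : ∀ a b, Loc p E P s a b → a i = a j) :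
    RA p E P s e i = RA p E P s e j := by
  have h1 : cls p E P s e (Sum.inl i) ↔ cls p E P s e (Sum.inl j) := cls_congr h
  unfold RA
  by_cases h2 : cls p E P s e (Sum.inl i)
  · rw [if_pos h2, if_pos (h1.1 h2)]
  · rw [if_neg h2, if_neg (fun hh => h2 (h1.2 hh))]

lemma RAB (e : ZMod n ⊕ ZMod n) {i j : ZMod n} (h : ∀ a b, Loc p E P s a b → a i = b j) :
    RA p E P s e i = RB p E P s e j := by
  have h1 : cls p E P s e (Sum.inl i) ↔ cls p E P s e (Sum.inr j) := cls_congr h
  unfold RA RB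
  by_cases h2 : cls p E P s e (Sum.inl i)
  · rw [if_pos h2, if_pos (h1.1 h2)]
  · rw [if_neg h2, if_neg (fun hh => h2 (h1.2 hh))]

lemma RBB (e : ZMod n ⊕ ZMod n) {i j : ZMod n} (h : ∀ a b, Loc p E P s a b → b i = b j) :
    RB p E P s e i = RB p E P s e j := by
  have h1 : cls p E P s e (Sum.inr i) ↔ cls p E P s e (Sum.inr j) := cls_congr h
  unfold RB
  by_cases h2 : cls p E P s e (Sum.inr i)
  · rw [if_pos h2, if_pos (h1.1 h2)]
  · rw [if_neg h2, if_neg (fun hh => h2 (h1.2 hh))]

lemma loc_R (e : ZMod n ⊕ ZMod n) : Loc p E P s (RA p E P s e) (RB p E P s e) := by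
  intro i
  refine ⟨?_, ?_, ?_, ?_⟩
  · intro hi
    exact ⟨RAA e fun a b hab => ((hab i).1 hi).1, RBB e fun a b hab => ((hab i).1 hi).2⟩
  · intro hi ht
    exact ⟨RAB e fun a b hab => ((hab i).2.1 hi ht).1, RAB e fun a b hab => ((hab i).2.1 hi ht).2⟩
  · intro hi ht
    exact ⟨RAB e fun a b hab => ((hab i).2.2.1 hi ht).1,
      RAB e fun a b hab => ((hab i).2.2.1 hi ht).2⟩
  · intro hi hi'
    exact ⟨RAA e fun a b hab => ((hab i).2.2.2 hi hi').1,
      RAB e fun a b hab => ((hab i).2.2.2 hi hi').2.1,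
      RBB e fun a b hab => ((hab i).2.2.2 hi hi').2.2⟩

lemma R_eq {e f : ZMod n ⊕ ZMod n} (h : cls p E P s e f) :
    RA p E P s e = RA p E P s f ∧ RB p E P s e = RB p E P s f := by
  have key : ∀ g, cls p E P s e g ↔ cls p E P s f g := fun g =>
    ⟨fun h1 a b hab => (h a b hab).symm.trans (h1 a b hab),
      fun h1 a b hab => (h a b hab).trans (h1 a b hab)⟩
  constructor
  · funext i
    unfold RA
    by_cases h2 : cls p E P s e (Sum.inl i)
    · rw [if_pos h2, if_pos ((key _).1 h2)]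
    · rw [if_neg h2, if_neg (fun hh => h2 ((key _).2 hh))]
  · funext i
    unfold RB
    by_cases h2 : cls p E P s e (Sum.inr i)
    · rw [if_pos h2, if_pos ((key _).1 h2)]
    · rw [if_neg h2, if_neg (fun hh => h2 ((key _).2 hh))]

lemma RA_self (i : ZMod n) : RA p E P s (Sum.inl i) i = 1 := if_pos fun _ _ _ => rfl

end

/-- the letter of a member of the cover at a place of the state -/
lemma letter : ∀ (t r1 r2 q1 q2 α1 α2 β1 β2 : ZMod 2),
    (t = 0 → r1 = q1 ∧ r2 = q2) → (t = 1 → r1 = q2 ∧ r2 = q1) → ¬ (r1 = 1 ∧ r2 = 1) →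
    (r1 = 0 → α1 = 0) → (r2 = 0 → α2 = 0) → (q1 = 0 → β1 = 0) → (q2 = 0 → β2 = 0) →
    α1 + α2 = β1 + β2 →
    ((α1 + α2, α2 + β2) : K) = 0 ∨ ((α1 + α2, α2 + β2) : K) = (1, t) := by
  intro t r1 r2 q1 q2 α1 α2 β1 β2 h0 h1 hr ha1 ha2 hb1 hb2 he
  rcases zz2 t with rfl | rfl
  · obtain ⟨rfl, rfl⟩ := h0 rfl
    rcases zz2 r1 with rfl | rfl
    · rcases zz2 r2 with rfl | rfl
      · rw [ha1 rfl, ha2 rfl, hb2 rfl]
        exact Or.inl rfl
      · rw [ha1 rfl] at he ⊢
        rw [hb1 rfl] at he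
        exact (show ∀ α2 β2 : ZMod 2, 0 + α2 = 0 + β2 →
          ((0 + α2, α2 + β2) : K) = 0 ∨ ((0 + α2, α2 + β2) : K) = (1, 0) by decide) _ _ he
    · rcases zz2 r2 with rfl | rfl
      · rw [ha2 rfl, hb2 rfl]
        exact (show ∀ α1 : ZMod 2,
          ((α1 + 0, 0 + 0) : K) = 0 ∨ ((α1 + 0, 0 + 0) : K) = (1, 0) by decide) _
      · exact absurd ⟨rfl, rfl⟩ hr
  · obtain ⟨rfl, rfl⟩ := h1 rfl
    rcases zz2 r1 with rfl | rfl
    · rcases zz2 r2 with rfl | rfl
      · rw [ha1 rfl, ha2 rfl, hb2 rfl]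
        exact Or.inl rfl
      · rw [ha1 rfl, hb2 rfl]
        exact (show ∀ α2 : ZMod 2,
          ((0 + α2, α2 + 0) : K) = 0 ∨ ((0 + α2, α2 + 0) : K) = (1, 1) by decide) _
    · rcases zz2 r2 with rfl | rfl
      · rw [ha2 rfl] at he ⊢
        rw [hb1 rfl] at he
        exact (show ∀ α1 β2 : ZMod 2, α1 + 0 = 0 + β2 →
          ((α1 + 0, 0 + β2) : K) = 0 ∨ ((α1 + 0, 0 + β2) : K) = (1, 1) by decide) _ _ he
      · exact absurd ⟨rfl, rfl⟩ hr

/-- the letter of the part of a class at a place of the state -/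
lemma letter2 : ∀ (t r1 r2 q1 q2 S T : ZMod 2),
    (t = 0 → r1 = q1 ∧ r2 = q2) → (t = 1 → r1 = q2 ∧ r2 = q1) → ¬ (r1 = 1 ∧ r2 = 1) →
    (r1 + r2 ≠ 0 → S = T) →
    ((r1 * S + r2 * S, r2 * S + q2 * T) : K) = 0 ∨
      ((r1 * S + r2 * S, r2 * S + q2 * T) : K) = (1, t) := by
  decide

theorem her {V : Type*} [Finite V] (G : SimpleGraph V) (M C₁ C₂ : G.Subgraph)
    (h : IsPermutationGraph G M C₁ C₂) (hmin : SubCovered G (wt M)) {n : ℕ} (hn : 3 ≤ n)
    (x y : ZMod n → V) (p : Equiv.Perm (ZMod n)) (hx : Numb C₁ x) (hy : Numb C₂ y)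
    (hM : ∀ i, M.Adj (x i) (y (p i))) : HER (Lp p) := by
  classical
  have : NeZero n := ⟨by omega⟩
  intro E P s hcov hne
  obtain ⟨hdis, hsP, hcv⟩ := hcov
  by_cases hno : (∃ g, g ∉ E ∧ g ∉ P ∧ ∃ u ∈ Lp p, BelowOn E P s u ∧ u g = z ∧
      ∀ w, w ∉ E → w ∉ P → w ≠ g → u w = 0)
  · exact Or.inl hno
  right
  have hEP : ∀ i, i ∈ E → i ∈ P → False := fun i h1 h2 => Set.disjoint_left.1 hdis h1 h2
  -- the two transitions at a covered place lie in different classes
  have hdiff : ∀ e, ∀ i ∈ P, ¬ (RA p E P s e (i - 1) = 1 ∧ RA p E P s e i = 1) := by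
    rintro e i hi ⟨h1, h2⟩
    obtain ⟨u, hu, hB, h0, hui⟩ := hcv i hi
    obtain ⟨a, b, hev, rfl⟩ := hu
    have hloc := loc_of hsP hev hB h0
    have h3 : cls p E P s e (Sum.inl (i - 1)) := by
      by_contra hh
      unfold RA at h1
      rw [if_neg hh] at h1
      exact absurd h1 (by decide)
    have h4 : cls p E P s e (Sum.inl i) := by
      by_contra hh
      unfold RA at h2
      rw [if_neg hh] at h2
      exact absurd h2 (by decide)
    have h5 : a (i - 1) = a i := (h3 a b hloc).symm.trans (h4 a b hloc)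
    have h6 : (word p a b i).1 = 0 := by
      simp only [word]
      rw [h5, CharTwo.add_self_eq_zero]
    rcases hB.2 i hi with h7 | h7
    · exact hui h7
    · rw [h7, hsP i hi] at h6
      exact absurd h6 (by decide)
  -- weights
  let R' := (ZMod n → ZMod 2) × (ZMod n → ZMod 2)
  let μ : R' → ZMod n → ℕ := fun R i =>
    if i ∈ E then 0 else if i ∈ P then (R.1 (i - 1) + R.1 i).val else 2 * (R.1 i).val
  have μE : ∀ R i, i ∈ E → μ R i = 0 := fun R i hi => if_pos hi
  have μP : ∀ (R : R') i, i ∈ P → μ R i = (R.1 (i - 1) + R.1 i).val := fun R i hi => by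
    show (if i ∈ E then 0 else if i ∈ P then (R.1 (i - 1) + R.1 i).val else 2 * (R.1 i).val) = _
    rw [if_neg (fun hh => hEP i hh hi), if_pos hi]
  have μN : ∀ (R : R') i, i ∉ E → i ∉ P → μ R i = 2 * (R.1 i).val := fun R i hi hi' => by
    show (if i ∈ E then 0 else if i ∈ P then (R.1 (i - 1) + R.1 i).val else 2 * (R.1 i).val) = _
    rw [if_neg hi, if_neg hi']
  have hzv : ∀ t : ZMod 2, t.val ≤ 1 := by decide
  let IsC : R' → Prop := fun R => ∃ e, R = (RA p E P s e, RB p E P s e)
  have H : ∀ R : R', IsC R → ∃ (k : ℕ) (A B Mm : Fin k → ZMod n → Prop),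
      (∀ c i, Two (A c (i - 1)) (A c i) (Mm c i)) ∧
      (∀ c i, Two (B c (p i - 1)) (B c (p i)) (Mm c i)) ∧
      (∀ i, {c | A c i}.ncard = (R.1 i).val) ∧ (∀ j, {c | B c j}.ncard = (R.2 j).val) ∧
      (∀ i, {c | Mm c i}.ncard = μ R i) := by
    rintro R ⟨e, rfl⟩
    have hloc := loc_R (p := p) (E := E) (P := P) (s := s) e
    have hev := hloc.ev
    have hdf := hdiff e
    generalize RA p E P s e = ra at *
    generalize RB p E P s e = rb at *
    have hpar : ∀ i, ((μ (ra, rb) i : ℕ) : ZMod 2) = ra (i - 1) + ra i := by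
      intro i
      by_cases hiE : i ∈ E
      · rw [μE _ i hiE, ((hloc i).1 hiE).1, CharTwo.add_self_eq_zero]
        rfl
      · by_cases hiP : i ∈ P
        · rw [μP _ i hiP]
          exact ZMod.natCast_zmod_val _
        · rw [μN _ i hiE hiP, ((hloc i).2.2.2 hiE hiP).1, CharTwo.add_self_eq_zero]
          push_cast
          rw [show (2 : ZMod 2) = 0 by decide, zero_mul]
    refine cover G M C₁ C₂ h hmin hn x y p hx hy hM ra rb (μ (ra, rb)) ?_ ?_ hpar
      (fun i => (hpar i).trans (hev i)) ?_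
    · intro i
      by_cases hiE : i ∈ E
      · rw [μE _ i hiE]; omega
      · by_cases hiP : i ∈ P
        · rw [μP _ i hiP]
          have := hzv (ra (i - 1) + ra i)
          exact this.trans (by norm_num)
        · rw [μN _ i hiE hiP]
          have := hzv (ra i)
          show 2 * (ra i).val ≤ 2
          omega
    · obtain ⟨i, hi | hi⟩ := hne
      · refine ⟨i, ?_⟩
        rw [μE _ i hi]; omega
      · refine ⟨i, ?_⟩
        rw [μP _ i hi]
        have := hzv (ra (i - 1) + ra i)
        show (ra (i - 1) + ra i).val ≠ 2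
        omega
    · intro g hg S T hS hT hST hSg hTg
      have hgE : g ∉ E := fun hh => by rw [μE _ g hh] at hg; omega
      have hgP : g ∉ P := fun hh => by
        rw [μP _ g hh] at hg
        have := hzv (ra (g - 1) + ra g)
        have h1 : (ra (g - 1) + ra g).val = 2 := hg
        omega
      have hg1 : ra g = 1 := by
        rcases zz2 (ra g) with h1 | h1
        · exfalso
          rw [μN _ g hgE hgP] at hg
          have h2 : 2 * (ra g).val = 2 := hg
          rw [h1] at h2
          exact absurd h2 (by decide)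
        · exact h1
      obtain ⟨g1, g2, g3⟩ := (hloc g).2.2.2 hgE hgP
      apply hno
      have sx : ∀ i, ra (i - 1) * S (i - 1) = ra (i - 1) * S i := by
        intro i
        rcases zz2 (ra (i - 1)) with h1 | h1
        · rw [h1, zero_mul, zero_mul]
        · have := hS (i - 1) h1
          rw [sub_add_cancel] at this
          rw [this]
      have sy : ∀ j, rb (j - 1) * T (j - 1) = rb (j - 1) * T j := by
        intro i
        rcases zz2 (rb (i - 1)) with h1 | h1
        · rw [h1, zero_mul, zero_mul]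
        · have := hT (i - 1) h1
          rw [sub_add_cancel] at this
          rw [this]
      have hμ0 : ∀ i, ra (i - 1) + ra i ≠ 0 → μ (ra, rb) i ≠ 0 := by
        intro i hi hh
        apply hi
        rw [← hpar i, hh]
        rfl
      have hw : ∀ i, word p (fun i => ra i * S i) (fun j => rb j * T j) i =
          (ra (i - 1) * S i + ra i * S i, ra i * S i + rb (p i) * T (p i)) := by
        intro i
        show (ra (i - 1) * S (i - 1) + ra i * S i, ra i * S i + rb (p i) * T (p i)) = _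
        rw [sx]
      refine ⟨g, hgE, hgP, word p (fun i => ra i * S i) (fun j => rb j * T j), word_mem p _ _ ?_,
        ⟨?_, ?_⟩, ?_, ?_⟩
      · intro i
        show ra (i - 1) * S (i - 1) + ra i * S i = rb (p i - 1) * T (p i - 1) + rb (p i) * T (p i)
        rw [sx, sy, ← add_mul, ← add_mul, ← hev i]
        rcases zz2 (ra (i - 1) + ra i) with h1 | h1
        · rw [h1, zero_mul, zero_mul]
        · have hig : i ≠ g := by
            rintro rfl
            rw [g1, CharTwo.add_self_eq_zero] at h1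
            exact absurd h1 (by decide)
          rw [hST i hig (hμ0 i (by rw [h1]; decide))]
      · intro i hi
        rw [hw]
        show ra (i - 1) * S i + ra i * S i = 0
        rw [((hloc i).1 hi).1, CharTwo.add_self_eq_zero]
      · intro i hi
        rw [hw]
        have hsi : s i = (1, (s i).2) := Prod.ext (hsP i hi) rfl
        rw [hsi]
        have hig : i ≠ g := fun hh => hgP (hh ▸ hi)
        exact letter2 (s i).2 (ra (i - 1)) (ra i) (rb (p i - 1)) (rb (p i)) (S i) (T (p i))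
          ((hloc i).2.1 hi) ((hloc i).2.2.1 hi) (hdf i hi) (fun hh => hST i hig (hμ0 i hh))
      · rw [hw, g1, ← g2, hg1, hSg, hTg]
        decide
      · intro i hiE hiP hig
        obtain ⟨k1, k2, k3⟩ := (hloc i).2.2.2 hiE hiP
        rw [hw, k1, ← k2]
        rcases zz2 (ra i) with h1 | h1
        · rw [h1]
          simp
        · have h2 : μ (ra, rb) i ≠ 0 := by
            rw [μN _ i hiE hiP]
            show 2 * (ra i).val ≠ 0
            rw [h1]
            decide
          rw [hST i hig h2, CharTwo.add_self_eq_zero]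
          rfl
  choose k A B Mm h1 h2 h3 h4 h5 using H
  let AC : (R : R') → (hR : IsC R) → Fin (k R hR) → ZMod n → ZMod 2 :=
    fun R hR c i => if A R hR c i then 1 else 0
  let BC : (R : R') → (hR : IsC R) → Fin (k R hR) → ZMod n → ZMod 2 :=
    fun R hR c i => if B R hR c i then 1 else 0
  have tw : ∀ (X Y Z : Prop) [Decidable X] [Decidable Y] [Decidable Z], Two X Y Z →
      ((if X then 1 else 0 : ZMod 2) + (if Y then 1 else 0) = if Z then 1 else 0) := by
    intro X Y Z _ _ _ hh
    unfold Two at hh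
    rcases hh with ⟨a1, a2, a3⟩ | ⟨a1, a2, a3⟩ | ⟨a1, a2, a3⟩ | ⟨a1, a2, a3⟩ <;> simp [a1, a2, a3]
    decide
  have hevC : ∀ R hR c, Ev p (AC R hR c) (BC R hR c) := by
    intro R hR c i
    exact (tw _ _ _ (h1 R hR c i)).trans (tw _ _ _ (h2 R hR c i)).symm
  have hA0 : ∀ (R : R') hR c i, R.1 i = 0 → AC R hR c i = 0 := by
    intro R hR c i hi
    have h6 := h3 R hR i
    rw [hi] at h6
    have h7 : ¬ A R hR c i := by
      intro hh
      have h8 : {c | A R hR c i} = ∅ := (Set.ncard_eq_zero (Set.toFinite _)).1 h6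
      have h9 : c ∈ {c | A R hR c i} := hh
      rw [h8] at h9
      exact h9
    exact if_neg h7
  have hB0 : ∀ (R : R') hR c i, R.2 i = 0 → BC R hR c i = 0 := by
    intro R hR c i hi
    have h6 := h4 R hR i
    rw [hi] at h6
    have h7 : ¬ B R hR c i := by
      intro hh
      have h8 : {c | B R hR c i} = ∅ := (Set.ncard_eq_zero (Set.toFinite _)).1 h6
      have h9 : c ∈ {c | B R hR c i} := hh
      rw [h8] at h9
      exact h9
    exact if_neg h7
  have hM0 : ∀ (R : R') hR c i, μ R i = 0 → ¬ Mm R hR c i := by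
    intro R hR c i hi hh
    have h6 := h5 R hR i
    rw [hi] at h6
    have h8 : {c | Mm R hR c i} = ∅ := (Set.ncard_eq_zero (Set.toFinite _)).1 h6
    have h9 : c ∈ {c | Mm R hR c i} := hh
    rw [h8] at h9
    exact h9
  let W : (R : R') → (hR : IsC R) → Fin (k R hR) → ZMod n → K :=
    fun R hR c => word p (AC R hR c) (BC R hR c)
  have hW1 : ∀ R hR c i, (W R hR c i).1 = if Mm R hR c i then 1 else 0 := by
    intro R hR c i
    exact tw _ _ _ (h1 R hR c i)
  have hWm : ∀ R hR c, W R hR c ∈ Lp p := fun R hR c => word_mem p _ _ (hevC R hR c)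
  have hWB : ∀ R hR c, BelowOn E P s (W R hR c) := by
    intro R hR c
    constructor
    · intro i hi
      rw [hW1, if_neg (hM0 R hR c i (μE R i hi))]
    · intro i hi
      have hsi : s i = (1, (s i).2) := Prod.ext (hsP i hi) rfl
      rw [hsi]
      obtain ⟨e, he⟩ := hR
      have hloc := loc_R (p := p) (E := E) (P := P) (s := s) e
      have hdf := hdiff e i hi
      have e1 : R.1 = RA p E P s e := by rw [he]
      have e2 : R.2 = RB p E P s e := by rw [he]
      rw [← e1] at hdf
      rw [← e1, ← e2] at hloc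
      exact letter (s i).2 (R.1 (i - 1)) (R.1 i) (R.2 (p i - 1)) (R.2 (p i)) (AC R ⟨e, he⟩ c (i - 1))
        (AC R ⟨e, he⟩ c i) (BC R ⟨e, he⟩ c (p i - 1)) (BC R ⟨e, he⟩ c (p i)) ((hloc i).2.1 hi)
        ((hloc i).2.2.1 hi) hdf (hA0 R _ c _) (hA0 R _ c _) (hB0 R _ c _) (hB0 R _ c _)
        (hevC R _ c i)
  -- letters outside the state
  have hloc4 : ∀ (R : R'), IsC R → ∀ i, i ∉ E → i ∉ P →
      R.1 (i - 1) = R.1 i ∧ R.1 i = R.2 (p i) ∧ R.2 (p i - 1) = R.2 (p i) := by
    rintro R ⟨e, rfl⟩ i hiE hiP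
    exact (loc_R (p := p) (E := E) (P := P) (s := s) e i).2.2.2 hiE hiP
  have hK2 : ∀ (R : R') hR c i, i ∉ E → i ∉ P → R.1 i = 0 → W R hR c i = 0 := by
    intro R hR c i hiE hiP hi
    obtain ⟨k1, k2, k3⟩ := hloc4 R hR i hiE hiP
    show (AC R hR c (i - 1) + AC R hR c i, AC R hR c i + BC R hR c (p i)) = 0
    rw [hA0 R hR c i hi, hA0 R hR c (i - 1) (k1.trans hi), hB0 R hR c (p i) (k2.symm.trans hi)]
    rfl
  have hK3 : ∀ (R : R') hR i, i ∉ E → i ∉ P → R.1 i = 1 →
      (∀ c, ¬ Mm R hR c i → W R hR c i = 0) ∧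
      ∀ c c', Mm R hR c i → Mm R hR c' i → W R hR c i = W R hR c' i := by
    intro R hR i hiE hiP hi
    obtain ⟨k1, k2, k3⟩ := hloc4 R hR i hiE hiP
    have c1 : {c | A R hR c (i - 1)}.ncard = 1 := by rw [h3, k1, hi]; rfl
    have c2 : {c | A R hR c i}.ncard = 1 := by rw [h3, hi]; rfl
    have c3 : {c | B R hR c (p i - 1)}.ncard = 1 := by rw [h4, k3, ← k2, hi]; rfl
    have c4 : {c | B R hR c (p i)}.ncard = 1 := by rw [h4, ← k2, hi]; rfl
    have c5 : {c | Mm R hR c i}.ncard = 2 := by rw [h5, μN R i hiE hiP, hi]; rfl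
    have p1 := pair _ _ _ (fun c => h1 R hR c i) c1 c2 c5
    have p2 := pair _ _ _ (fun c => h2 R hR c i) c3 c4 c5
    constructor
    · intro c hc
      show (AC R hR c (i - 1) + AC R hR c i, AC R hR c i + BC R hR c (p i)) = 0
      have a1 : AC R hR c (i - 1) = 0 := if_neg (p1.1 c hc).1
      have a2 : AC R hR c i = 0 := if_neg (p1.1 c hc).2
      have a3 : BC R hR c (p i) = 0 := if_neg (p2.1 c hc).2
      rw [a1, a2, a3]
      rfl
    · intro c c' hc hc'
      by_cases hcc : c = c'
      · rw [hcc]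
      · apply Prod.ext
        · rw [hW1, hW1, if_pos hc, if_pos hc']
        · show AC R hR c i + BC R hR c (p i) = AC R hR c' i + BC R hR c' (p i)
          have q1 := p1.2 c c' hc hc' hcc
          have q2 := p2.2 c c' hc hc' hcc
          show (if A R hR c i then (1 : ZMod 2) else 0) + (if B R hR c (p i) then 1 else 0) =
            (if A R hR c' i then 1 else 0) + (if B R hR c' (p i) then 1 else 0)
          by_cases b1 : A R hR c' i <;> by_cases b2 : B R hR c' (p i)
          · rw [if_pos b1, if_pos b2, if_neg (fun hh => (q1.1 hh) b1),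
              if_neg (fun hh => (q2.1 hh) b2)]
            decide
          · rw [if_pos b1, if_neg b2, if_neg (fun hh => (q1.1 hh) b1), if_pos (q2.2 b2)]
            decide
          · rw [if_neg b1, if_pos b2, if_pos (q1.2 b1), if_neg (fun hh => (q2.1 hh) b2)]
            decide
          · rw [if_neg b1, if_neg b2, if_pos (q1.2 b1), if_pos (q2.2 b2)]
            decide
  -- the full state
  let Rv : ZMod n → R' := fun v => (RA p E P s (Sum.inl v), RB p E P s (Sum.inl v))
  have hRv : ∀ v, IsC (Rv v) := fun v => ⟨Sum.inl v, rfl⟩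
  have hRv1 : ∀ v, (Rv v).1 v = 1 := fun v => RA_self v
  have hex : ∀ v, v ∉ E → v ∉ P → ∃ c, Mm (Rv v) (hRv v) c v := by
    intro v hvE hvP
    have : {c | Mm (Rv v) (hRv v) c v}.Nonempty := by
      rw [← Set.ncard_pos (Set.toFinite _), h5, μN _ v hvE hvP, hRv1]
      decide
    exact this
  refine ⟨fun v => if hv : ∃ c, Mm (Rv v) (hRv v) c v then W (Rv v) (hRv v) hv.choose v
    else (1, 0), ?_, ?_⟩
  · intro v
    show (if hv : ∃ c, Mm (Rv v) (hRv v) c v then W (Rv v) (hRv v) hv.choose v else (1, 0)).1 = 1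
    split_ifs with hv
    · rw [hW1, if_pos hv.choose_spec]
    · rfl
  · intro v hvE hvP
    obtain ⟨c, hc⟩ := hex v hvE hvP
    refine ⟨W (Rv v) (hRv v) c, hWm _ _ _, hWB _ _ _, ?_, ?_⟩
    · intro w hwE hwP
      rcases zz2 ((Rv v).1 w) with hz | hz
      · exact Or.inl (hK2 _ _ c w hwE hwP hz)
      · have hcl : cls p E P s (Sum.inl v) (Sum.inl w) := by
          by_contra hh
          have h6 : RA p E P s (Sum.inl v) w = 1 := hz
          unfold RA at h6
          rw [if_neg hh] at h6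
          exact absurd h6 (by decide)
        have hEq : Rv w = Rv v := (Prod.ext (R_eq hcl).1 (R_eq hcl).2).symm
        by_cases hm : Mm (Rv v) (hRv v) c w
        · right
          have hv := hex w hwE hwP
          show _ = (if hv : ∃ c, Mm (Rv w) (hRv w) c w then W (Rv w) (hRv w) hv.choose w
            else (1, 0))
          rw [dif_pos hv]
          have key : ∀ (R : R') (hR : IsC R), R = Rv v → ∀ c', Mm R hR c' w →
              W (Rv v) (hRv v) c w = W R hR c' w := by
            intro R hR hRe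
            subst hRe
            intro c' hc'
            exact (hK3 (Rv v) hR w hwE hwP hz).2 c c' hm hc'
          exact key (Rv w) (hRv w) hEq _ hv.choose_spec
        · exact Or.inl ((hK3 _ _ w hwE hwP hz).1 c hm)
    · intro h0
      have h6 := hW1 (Rv v) (hRv v) c v
      rw [h0, if_pos hc] at h6
      exact absurd h6 (by decide)

end Pool.Agent.H55.HC
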